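import Pool.Agent.MP_94842c_co.Lim
import Mathlib.Combinatorics.SimpleGraph.Connectivity.Connected
import Mathlib.Tactic.FinCases

/-! Rings of diamonds. -/

set_option autoImplicit false

noncomputable section

namespace Pool.Agent.MP_94842c_co.Th

open SimpleGraph Set Pool.Agent.MP_94842c_co.Lim

variable {V W : Type}

theorem ser_conn {G : SimpleGraph V} {H : SimpleGraph W} (hG : G.Connected) (hH : H.Connected)
    (t : V) (s : W) : (ser G H t s).Connected := by
  have h : (ser G H t s).Adj (.inl t) (.inr s) := .inr (by simp)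
  refine (connected_iff_exists_forall_reachable _).2 ⟨.inl t, ?_⟩
  rintro (x | x)
  · exact (hG t x).map (serL G H t s)
  · exact h.reachable.trans ((hH s x).map (serR G H t s))

theorem cross {G : SimpleGraph V} {H : SimpleGraph W} {t : V} {s : W} {x y : V ⊕ W}
    (p : (ser G H t s).Walk x y) (hx : x.isLeft) (hy : y.isRight) :
    s(Sum.inl t, Sum.inr s) ∈ p.edges := by
  induction p with
  | nil => cases ‹V ⊕ W› <;> simp_all
  | @cons a b c h q ih =>
    rw [Walk.edges_cons, List.mem_cons]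
    rcases b with b | b
    · exact .inr (ih rfl hy)
    · rcases a with a | a
      · have h1 : s(Sum.inl a, Sum.inr b) ∈ (ser G H t s).edgeSet := h
        rw [ser_edges] at h1
        exact .inl (h1.resolve_right (lr_notMem _ _ _ _)).symm
      · simp at hx

/-- two graphs side by side, joined by two edges with a common end -/
def ser2 (G : SimpleGraph V) (H : SimpleGraph W) (t : V) (s s' : W) : SimpleGraph (V ⊕ W) :=
  ser G H t s ⊔ ser G H t s'

theorem ser_notMem (G : SimpleGraph V) (H : SimpleGraph W) {t a : V} {s b : W}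
    (h : a ≠ t ∨ b ≠ s) : s(Sum.inl a, Sum.inr b) ∉ (ser G H t s).edgeSet := by
  rw [ser_edges]
  rintro (h1 | h1)
  · simp at h1
    tauto
  · exact lr_notMem _ _ _ _ h1

theorem ser2_card [Finite V] [Finite W] (G : SimpleGraph V) (H : SimpleGraph W) (t : V) {s s' : W}
    (h : s ≠ s') : (ser2 G H t s s').edgeSet.ncard = G.edgeSet.ncard + H.edgeSet.ncard + 2 := by
  have e : (ser2 G H t s s').edgeSet = insert s(.inl t, .inr s) (ser G H t s').edgeSet := by
    rw [ser2, edgeSet_sup, ser_edges, ser_edges, insert_union, union_eq_right.2 (subset_insert _ _)]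
  rw [e, ncard_insert_of_notMem (ser_notMem G H (.inr h)), ser_card]

theorem paths_mono {G G' : SimpleGraph V} (h : G ≤ G') (a b : V) : paths G a b ⊆ paths G' a b := by
  rintro _ ⟨p, hp, rfl⟩
  refine ⟨p.mapLe h, hp.mapLe _, ?_⟩
  ext
  simp

theorem ser2_paths [Finite V] [Finite W] (G : SimpleGraph V) (H : SimpleGraph W) (a t : V)
    {s s' : W} (h : s ≠ s') (b : W) :
    (paths G a t).ncard * ((paths H s b).ncard + (paths H s' b).ncard) ≤
      (paths (ser2 G H t s s') (.inl a) (.inr b)).ncard := by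
  have hd : Disjoint (paths (ser G H t s) (.inl a) (.inr b))
      (paths (ser G H t s') (.inl a) (.inr b)) := by
    rw [Set.disjoint_left]
    rintro _ ⟨p, -, rfl⟩ h2
    exact ser_notMem G H (.inr h) (paths_sub _ h2 (cross p rfl rfl))
  rw [mul_add]
  refine (add_le_add (ser_paths G H a t s b) (ser_paths G H a t s' b)).trans ?_
  rw [← ncard_union_eq hd]
  exact ncard_le_ncard (union_subset (paths_mono le_sup_left _ _) (paths_mono le_sup_right _ _))

theorem close1 {G G' : SimpleGraph V} (hG : G ≤ G') {s t : V} (h : G'.Adj s t)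
    (hn : ¬G.Adj s t) : insert s(s, t) '' paths G t s ⊆ cycles G' := by
  rintro _ ⟨_, ⟨p, hp, rfl⟩, rfl⟩
  refine ⟨s, .cons h (p.mapLe hG), (Walk.cons_isCycle_iff _ _).2
    ⟨hp.mapLe _, fun h3 => hn (p.edges_subset_edgeSet (by simpa using h3))⟩, ?_⟩
  ext
  simp

theorem close_card {G : SimpleGraph V} {s t : V} (hn : ¬G.Adj s t) :
    (insert s(s, t) '' paths G t s).ncard = (paths G s t).ncard := by
  rw [(paths_symm (G := G) (s := s) (t := t)).antisymm paths_symm]
  refine InjOn.ncard_image fun S hS T hT e => ?_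
  rw [← insert_sdiff_self_of_notMem (a := s(s, t)) fun h => hn (paths_sub S hS h), e,
    insert_sdiff_self_of_notMem fun h => hn (paths_sub T hT h)]

theorem close2 [Finite V] (G : SimpleGraph V) {s a b : V} (ha : s ≠ a) (hb : s ≠ b) (h : a ≠ b)
    (na : ¬G.Adj s a) (nb : ¬G.Adj s b) :
    (G ⊔ fromEdgeSet {s(s, a), s(s, b)}).edgeSet.ncard = G.edgeSet.ncard + 2 ∧
    (paths G s a).ncard + (paths G s b).ncard ≤
      (cycles (G ⊔ fromEdgeSet {s(s, a), s(s, b)})).ncard := by
  have hne : s(s, a) ≠ s(s, b) := by simp [h, hb]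
  constructor
  · rw [edgeSet_sup, edgeSet_fromEdgeSet, sdiff_eq_left.2 (by simp [ha, hb]), union_insert,
      union_singleton, ncard_insert_of_notMem, ncard_insert_of_notMem (mt G.mem_edgeSet.1 nb)]
    exact fun h1 => h1.elim hne na
  · rw [← close_card na, ← close_card nb, ← ncard_union_eq]
    · exact ncard_le_ncard (union_subset (close1 le_sup_left (.inr (by simp [ha])) na)
        (close1 le_sup_left (.inr (by simp [hb])) nb))
    · rw [Set.disjoint_left]
      rintro _ ⟨S, -, rfl⟩ ⟨T, hT, e⟩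
      have h1 : s(s, a) ∈ insert s(s, b) T := e ▸ mem_insert _ _
      exact h1.elim hne fun h2 => na (paths_sub T hT h2)

theorem one_le_paths [Finite V] {G : SimpleGraph V} (hG : G.Connected) (a b : V) :
    1 ≤ (paths G a b).ncard := by
  classical
  obtain ⟨p⟩ := hG a b
  exact (ncard_pos (toFinite _)).2 ⟨_, p.bypass, p.bypass_isPath, rfl⟩

theorem two_le_paths {a b c : Fin 3} (h1 : a ≠ b) (h2 : a ≠ c) (h3 : b ≠ c) :
    2 ≤ (paths (⊤ : SimpleGraph (Fin 3)) a c).ncard := by
  refine (one_lt_ncard (toFinite _)).2 ⟨_, ⟨.cons h2 .nil, by simp [h2], rfl⟩, _,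
    ⟨.cons h1 (.cons h3 .nil), by simp [h1, h2, h3], rfl⟩, fun h => ?_⟩
  have : s(a, b) ∈ (Walk.cons (G := ⊤) h2 .nil).edgeSet := h ▸ by simp
  simp [h2, h3] at this

theorem top_card (k : ℕ) : (⊤ : SimpleGraph (Fin k)).edgeSet.ncard = k.choose 2 := by
  rw [← coe_edgeFinset, ncard_coe_finset, card_edgeFinset_top_eq_card_choose_two,
    Fintype.card_fin]

/-- a connected graph with `n` vertices, `m` edges and `p` paths between two vertices -/
def Two (n m p : ℕ) (d : Prop) : Prop := ∃ (V : Type) (_ : Finite V) (G : SimpleGraph V) (s t : V),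
  G.Connected ∧ Nat.card V = n ∧ G.edgeSet.ncard = m ∧ p ≤ (paths G s t).ncard ∧ (d → s ≠ t)

theorem two_base : Two 1 0 1 False :=
  ⟨Fin 1, inferInstance, ⊤, 0, 0, connected_top, by simp, top_card 1,
    one_le_paths connected_top _ _, False.elim⟩

theorem two_sub {n m p : ℕ} {d : Prop} (h : Two n m p d) : Two (n + 1) (m + 1) p True := by
  obtain ⟨V, _, G, s, t, h1, rfl, rfl, h2, -⟩ := h
  refine ⟨_, inferInstance, ser G (⊤ : SimpleGraph (Fin 1)) t 0, .inl s, .inr 0,
    ser_conn h1 connected_top _ _, by simp, by rw [ser_card, top_card]; rfl,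
    le_trans ?_ (ser_paths _ _ _ _ _ _), by simp⟩
  exact h2.trans (Nat.le_mul_of_pos_right _ (one_le_paths connected_top _ _))

theorem tri_paths [Finite V] (G : SimpleGraph V) (s t : V) (b : Fin 2) :
    (paths G s t).ncard * 2 ≤
      (paths (ser2 G (⊤ : SimpleGraph (Fin 2)) t 0 1) (.inl s) (.inr b)).ncard :=
  (Nat.mul_le_mul_left _ (add_le_add (one_le_paths connected_top _ _)
    (one_le_paths connected_top _ _))).trans (ser2_paths G _ s t zero_ne_one b)

theorem two_tri {n m p : ℕ} {d : Prop} (h : Two n m p d) : Two (n + 2) (m + 3) (p * 2) True := by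
  obtain ⟨V, _, G, s, t, h1, rfl, rfl, h2, -⟩ := h
  exact ⟨_, inferInstance, ser2 G (⊤ : SimpleGraph (Fin 2)) t 0 1, .inl s, .inr 1,
    (ser_conn h1 connected_top _ _).mono le_sup_left, by simp,
    by rw [ser2_card _ _ _ zero_ne_one, top_card]; rfl,
    (Nat.mul_le_mul_right _ h2).trans (tri_paths G s t 1), by simp⟩

theorem two_dia {n m p : ℕ} {d : Prop} (h : Two n m p d) : Two (n + 3) (m + 5) (p * 4) True := by
  obtain ⟨V, _, G, s, t, h1, rfl, rfl, h2, -⟩ := h
  refine ⟨_, inferInstance, ser2 G (⊤ : SimpleGraph (Fin 3)) t 0 1, .inl s, .inr 2,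
    (ser_conn h1 connected_top _ _).mono le_sup_left, by simp,
    by rw [ser2_card _ _ _ zero_ne_one, top_card]; rfl,
    le_trans ?_ (ser2_paths G _ s t zero_ne_one 2), by simp⟩
  exact Nat.mul_le_mul h2 (add_le_add (two_le_paths (b := 1) (by decide) (by decide) (by decide))
    (two_le_paths (b := 0) (by decide) (by decide) (by decide)))

theorem two_subs {n m p : ℕ} (h : Two n m p True) (u : ℕ) : Two (n + u) (m + u) p True := by
  induction u with
  | zero => exact h
  | succ u ih => exact two_sub ih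

theorem two_dias {n m p : ℕ} (h : Two n m p True) (j : ℕ) :
    Two (n + 3 * j) (m + 5 * j) (p * 4 ^ j) True := by
  induction j with
  | zero => simpa using h
  | succ j ih =>
    rw [pow_succ, ← mul_assoc]
    exact two_dia ih

theorem two_close {n m p : ℕ} (h : Two n m p True) : ∃ (V : Type) (_ : Finite V)
    (G : SimpleGraph V), G.Connected ∧ Nat.card V = n + 2 ∧ G.edgeSet.ncard = m + 5 ∧
      p * 4 ≤ (cycles G).ncard := by
  obtain ⟨V, _, G, s, t, h1, rfl, rfl, h2, h3⟩ := h
  have na : ∀ b, ¬(ser2 G (⊤ : SimpleGraph (Fin 2)) t 0 1).Adj (.inl s) (.inr b) := fun b h =>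
    h.elim (ser_notMem G ⊤ (.inl (h3 trivial))) (ser_notMem G ⊤ (.inl (h3 trivial)))
  obtain ⟨h4, h5⟩ := close2 (ser2 G (⊤ : SimpleGraph (Fin 2)) t 0 1) (s := .inl s) (a := .inr 0)
    (b := .inr 1) (by simp) (by simp) (by simp) (na 0) (na 1)
  refine ⟨_, inferInstance, _, ((ser_conn h1 connected_top _ _).mono le_sup_left).mono le_sup_left,
    by simp, h4.trans (by rw [ser2_card _ _ _ zero_ne_one, top_card]; rfl), le_trans ?_ h5⟩
  have := tri_paths G s t 0
  have := tri_paths G s t 1
  omega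

theorem lower {n m : ℕ} (h1 : n + 3 ≤ m) (h2 : 3 * m ≤ 5 * n) : ∃ (V : Type) (_ : Finite V)
    (G : SimpleGraph V), G.Connected ∧ Nat.card V = n ∧ G.edgeSet.ncard = m ∧
      2 ^ (m - n) ≤ (cycles G).ncard := by
  obtain ⟨k, rfl⟩ := Nat.exists_eq_add_of_le (show n ≤ m by omega)
  rw [Nat.add_sub_cancel_left]
  rcases Nat.even_or_odd' k with ⟨j, rfl | rfl⟩
  · obtain ⟨j, rfl⟩ := Nat.exists_eq_add_of_le' (show 2 ≤ j by omega)
    obtain ⟨u, rfl⟩ := Nat.exists_eq_add_of_le (show 3 * j + 6 ≤ n by omega)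
    obtain ⟨V, _, G, a, b, c, d⟩ := two_close (two_subs (two_dias (two_dia two_base) j) u)
    refine ⟨V, inferInstance, G, a, by omega, by omega, le_trans (le_of_eq ?_) d⟩
    rw [pow_mul]
    ring
  · obtain ⟨j, rfl⟩ := Nat.exists_eq_add_of_le' (show 1 ≤ j by omega)
    obtain ⟨u, rfl⟩ := Nat.exists_eq_add_of_le (show 3 * j + 5 ≤ n by omega)
    obtain ⟨V, _, G, a, b, c, d⟩ := two_close (two_subs (two_dias (two_tri two_base) j) u)
    refine ⟨V, inferInstance, G, a, by omega, by omega, le_trans (le_of_eq ?_) d⟩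
    rw [pow_succ, pow_mul]
    ring

end Pool.Agent.MP_94842c_co.Th
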