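import Pool.Agent.MP_94842c_co.Cyc
import Mathlib.Combinatorics.SimpleGraph.Metric
import Mathlib.Analysis.SpecialFunctions.Sqrt

/-! A path potential that is exact on chains of diamonds. -/

set_option autoImplicit false

noncomputable section

namespace Pool.Agent.MP_94842c_co.Th

open Finset

/-- the ratio of consecutive weights -/
def rho : ℝ := 4 / 1.456 ^ 3

/-- the cost of one end of an additional parallel edge -/
def cc : ℝ := √1.059968

/-- the weight of a vertex of degree `d` -/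
def gam : ℕ → ℝ
  | 0 => 1
  | 1 => 1
  | 2 => 1.059968
  | d + 3 => 1.456 * rho ^ d

/-- the weight of the end of the path -/
def del : ℕ → ℝ
  | 0 => 0
  | 1 => 1
  | 2 => 1.44
  | _ + 3 => 1.72

/-- an upper bound for `del j / gam j` -/
def ab : ℕ → ℝ
  | 0 => 0
  | 1 => 1
  | 2 => 1.44 / 1.059968
  | _ + 3 => 1.72 / 1.456

theorem rho_ge : 1.2959 ≤ rho := by norm_num [rho]

theorem one_le_rho : 1 ≤ rho := by linarith [rho_ge]

theorem cc_sq : cc ^ 2 = 1.059968 := Real.sq_sqrt (by norm_num)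

theorem cc_pow (k : ℕ) : cc ^ (2 * k) = 1.059968 ^ k := by rw [pow_mul, cc_sq]

theorem one_le_cc : 1 ≤ cc := Real.one_le_sqrt.2 (by norm_num)

theorem gam_succ {d : ℕ} (h : 3 ≤ d) : gam (d + 1) = rho * gam d := by
  obtain ⟨d, rfl⟩ := Nat.exists_eq_add_of_le' h
  show 1.456 * rho ^ (d + 1) = rho * (1.456 * rho ^ d)
  ring

theorem gam_ge (d : ℕ) : 1.456 ≤ gam (d + 3) :=
  le_mul_of_one_le_right (by norm_num) (one_le_pow₀ one_le_rho)

theorem one_le_gam (d : ℕ) : 1 ≤ gam d := by
  match d with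
  | 0 | 1 | 2 => norm_num [gam]
  | d + 3 => linarith [gam_ge d]

theorem gam_pos (d : ℕ) : 0 < gam d := one_pos.trans_le (one_le_gam d)

theorem gam_mono : Monotone gam := monotone_nat_of_le_succ fun d => by
  match d with
  | 0 | 1 | 2 => norm_num [gam]
  | d + 3 =>
    rw [gam_succ (d := d + 3) (by omega)]
    exact le_mul_of_one_le_left (gam_pos _).le one_le_rho

theorem del_mono : Monotone del := monotone_nat_of_le_succ fun d => by
  match d with
  | 0 | 1 | 2 => norm_num [del]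
  | d + 3 => exact le_rfl

theorem del_nonneg (d : ℕ) : 0 ≤ del d := del_mono (Nat.zero_le d)

theorem one_le_del {d : ℕ} (h : 1 ≤ d) : 1 ≤ del d := del_mono h

theorem del_le (d : ℕ) : del d ≤ 1.72 := del_mono (Nat.le_add_right d 3)

theorem del_le_ab (j : ℕ) : del j ≤ ab j * gam j := by
  match j with
  | 0 | 1 | 2 => norm_num [del, ab, gam]
  | j + 3 =>
    have := gam_ge j
    show 1.72 ≤ 1.72 / 1.456 * gam (j + 3)
    linarith

theorem cc_le_gam {d : ℕ} (h : d ≤ 2) : cc ^ (d * (d - 1)) ≤ gam d := by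
  interval_cases d <;> simp [gam, cc_sq]

theorem exp_neg_le {y : ℝ} (h : 0 ≤ y) : Real.exp (-y) ≤ 1 / (1 + y) := by
  rw [Real.exp_neg, one_div]
  exact inv_anti₀ (by linarith) (by linarith [Real.add_one_le_exp y])

/-- decoupling of the neighbours -/
theorem lagr {ι : Type} (S : Finset ι) (m j : ι → ℕ) {l σ κ D : ℝ} (hl : 0 < l) (hκ : 0 < κ)
    (hD : l * Real.exp ((∑ u ∈ S, m u : ℕ) * σ - 1) ≤ D * κ ^ ∑ u ∈ S, m u)
    (h : ∀ u ∈ S, gam (j u) * (Real.exp (ab (j u) / l - σ) * κ) ^ m u ≤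
      gam (j u + m u) * cc ^ (2 * (m u - 1))) :
    (∑ u ∈ S, m u * ab (j u)) * ∏ u ∈ S, gam (j u) ≤
      D * ∏ u ∈ S, gam (j u + m u) * cc ^ (2 * (m u - 1)) := by
  set k := ∑ u ∈ S, m u with hk
  have a1 : ∑ u ∈ S, m u * ab (j u) ≤
      l * Real.exp (k * σ - 1) * ∏ u ∈ S, Real.exp (ab (j u) / l - σ) ^ m u := by
    simp only [← Real.exp_nat_mul]
    rw [← Real.exp_sum, mul_assoc, ← Real.exp_add, ← div_le_iff₀' hl]
    have e : k * σ - 1 + ∑ u ∈ S, m u * (ab (j u) / l - σ) =
        (∑ u ∈ S, m u * ab (j u)) / l - 1 := by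
      simp only [mul_sub, sum_sub_distrib, ← sum_mul, sum_div, mul_div_assoc, hk, Nat.cast_sum]
      ring
    rw [e]
    linarith [Real.add_one_le_exp ((∑ u ∈ S, m u * ab (j u)) / l - 1)]
  have a2 : κ ^ k * ((∏ u ∈ S, Real.exp (ab (j u) / l - σ) ^ m u) * ∏ u ∈ S, gam (j u)) ≤
      ∏ u ∈ S, gam (j u + m u) * cc ^ (2 * (m u - 1)) := by
    rw [hk, ← prod_pow_eq_pow_sum, ← prod_mul_distrib, ← prod_mul_distrib]
    refine prod_le_prod (fun u _ => by have := gam_pos (j u); positivity) fun u hu => ?_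
    refine le_trans (le_of_eq ?_) (h u hu)
    ring
  have p1 : 0 ≤ ∏ u ∈ S, gam (j u) := prod_nonneg fun _ _ => (gam_pos _).le
  have p2 : 0 ≤ (∏ u ∈ S, Real.exp (ab (j u) / l - σ) ^ m u) * ∏ u ∈ S, gam (j u) :=
    mul_nonneg (prod_nonneg fun _ _ => by positivity) p1
  have p3 : 0 ≤ D := by
    have : 0 < D * κ ^ k := lt_of_lt_of_le (by positivity) hD
    exact (pos_of_mul_pos_left this (by positivity)).le
  calc _ ≤ l * Real.exp (k * σ - 1) * (∏ u ∈ S, Real.exp (ab (j u) / l - σ) ^ m u) *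
        ∏ u ∈ S, gam (j u) := mul_le_mul_of_nonneg_right a1 p1
    _ = l * Real.exp (k * σ - 1) * ((∏ u ∈ S, Real.exp (ab (j u) / l - σ) ^ m u) *
        ∏ u ∈ S, gam (j u)) := by ring
    _ ≤ D * κ ^ k * ((∏ u ∈ S, Real.exp (ab (j u) / l - σ) ^ m u) * ∏ u ∈ S, gam (j u)) :=
        mul_le_mul_of_nonneg_right hD p2
    _ ≤ _ := by rw [mul_assoc]; exact mul_le_mul_of_nonneg_left a2 p3

theorem one_edge {j : ℕ} {x : ℝ} (h : x ≤ rho) : gam (j + 3) * x ^ 1 ≤
    gam (j + 3 + 1) * cc ^ (2 * (1 - 1)) := by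
  rw [gam_succ (d := j + 3) (by omega), pow_one, Nat.sub_self, mul_zero, pow_zero, mul_one, mul_comm]
  exact mul_le_mul_of_nonneg_right h (gam_pos _).le

theorem more {j m : ℕ} {x : ℝ} (h0 : 0 ≤ x) (hx : x ≤ 1.37) (h1 : 1 ≤ m) (h3 : 3 ≤ j + m)
    (h : gam j * x ^ m ≤ gam (j + m) * cc ^ (2 * (m - 1))) (i : ℕ) :
    gam j * x ^ (m + i) ≤ gam (j + (m + i)) * cc ^ (2 * (m + i - 1)) := by
  induction i with
  | zero => exact h
  | succ i ih =>
    have e : m + (i + 1) - 1 = m + i - 1 + 1 := by omega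
    have g0 := gam_pos (j + (m + i))
    have r0 := rho_ge
    rw [e, ← add_assoc, ← add_assoc, gam_succ (d := j + (m + i)) (by omega), pow_succ, ← mul_assoc, cc_pow, pow_succ]
    rw [cc_pow] at ih
    calc _ ≤ gam (j + (m + i)) * 1.059968 ^ (m + i - 1) * (rho * 1.059968) :=
          mul_le_mul ih (by linarith) h0 (by positivity)
      _ = _ := by ring

theorem nb1 {m j : ℕ} (hm : m ≤ 1) (h3 : 3 ≤ j + m) :
    gam j * (Real.exp (ab j / 1.36 - 1) * 1.36) ^ m ≤ gam (j + m) * cc ^ (2 * (m - 1)) := by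
  interval_cases m
  · simp
  match j, h3 with
  | 2, _ =>
    have : Real.exp (ab 2 / 1.36 - 1) ≤ 1 := Real.exp_le_one_iff.2 (by norm_num [ab])
    have e : gam (2 + 1) = 1.456 := by norm_num [gam]
    have e' : gam 2 = 1.059968 := rfl
    rw [e, e', pow_one, Nat.sub_self, mul_zero, pow_zero]
    linarith
  | j + 3, _ =>
    have := exp_neg_le (y := 1 - 1.72 / 1.456 / 1.36) (by norm_num)
    rw [neg_sub] at this
    refine one_edge (le_trans ?_ rho_ge)
    refine (mul_le_mul_of_nonneg_right this (by norm_num)).trans (by norm_num)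

theorem nb2 {m j : ℕ} (hm : m ≤ 2) (h3 : 3 ≤ j + m) :
    gam j * (Real.exp (ab j / (2 * ab 2) - 1 / 2) * (1.456 / 1.059968)) ^ m ≤
      gam (j + m) * cc ^ (2 * (m - 1)) := by
  rcases Nat.eq_zero_or_pos m with rfl | h1
  · simp
  match j, h3 with
  | 0, _ => omega
  | 1, _ =>
    obtain rfl : m = 2 := by omega
    have := exp_neg_le (y := 1 / 2 - 1 / (2 * (1.44 / 1.059968))) (by norm_num)
    rw [neg_sub] at this
    have h4 := pow_le_pow_left₀ (by positivity)
      (mul_le_mul_of_nonneg_right this (show (0 : ℝ) ≤ 1.456 / 1.059968 by norm_num)) 2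
    rw [cc_pow]
    refine le_trans (le_of_eq (one_mul _)) (h4.trans (by norm_num [gam]))
  | 2, _ =>
    have e : ab 2 / (2 * ab 2) - 1 / 2 = 0 := by norm_num [ab]
    rw [e, Real.exp_zero, cc_pow]
    interval_cases m <;> norm_num [gam, rho]
  | j + 3, _ =>
    have := exp_neg_le (y := 1 / 2 - 1.72 / 1.456 / (2 * (1.44 / 1.059968))) (by norm_num)
    rw [neg_sub] at this
    have h4 : Real.exp (ab (j + 3) / (2 * ab 2) - 1 / 2) * (1.456 / 1.059968) ≤ 1.2959 :=
      (mul_le_mul_of_nonneg_right this (by norm_num)).trans (by norm_num)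
    obtain ⟨i, rfl⟩ := Nat.exists_eq_add_of_le h1
    exact more (by positivity) (by linarith) le_rfl (by omega) (one_edge (h4.trans rho_ge)) i

theorem nb3 {m j : ℕ} (h3 : 3 ≤ j + m) :
    gam j * (Real.exp (ab j / 4.675 - 0) * 1) ^ m ≤ gam (j + m) * cc ^ (2 * (m - 1)) := by
  rcases Nat.eq_zero_or_pos m with rfl | h1
  · simp
  rw [sub_zero, mul_one]
  have p0 := (Real.exp_pos (ab j / 4.675)).le
  match j, h3, p0 with
  | 0, h3, p0 =>
    obtain ⟨i, rfl⟩ := Nat.exists_eq_add_of_le (show 3 ≤ m by omega)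
    refine more p0 (by norm_num [ab]) (by omega) (by omega) ?_ i
    rw [cc_pow]
    norm_num [ab, gam]
  | 1, h3, p0 =>
    obtain ⟨i, rfl⟩ := Nat.exists_eq_add_of_le (show 2 ≤ m by omega)
    have h4 : Real.exp (ab 1 / 4.675) ≤ 1.24 :=
      (exp_le_tp (by norm_num [ab]) (by norm_num [ab])).trans (by norm_num [tp, ab])
    refine more p0 (by linarith) (by omega) (by omega) ?_ i
    rw [cc_pow]
    refine le_trans (le_of_eq (one_mul _)) ((pow_le_pow_left₀ p0 h4 2).trans (by norm_num [gam]))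
  | 2, h3, p0 =>
    obtain ⟨i, rfl⟩ := Nat.exists_eq_add_of_le h1
    have h4 : Real.exp (ab 2 / 4.675) ≤ 1.34 :=
      (exp_le_tp (by norm_num [ab]) (by norm_num [ab])).trans (by norm_num [tp, ab])
    refine more p0 (by linarith) (by omega) (by omega) ?_ i
    have e : gam (2 + 1) = 1.456 := by norm_num [gam]
    rw [e]
    norm_num [gam] at h4 ⊢
    linarith
  | j + 3, h3, p0 =>
    obtain ⟨i, rfl⟩ := Nat.exists_eq_add_of_le h1
    have h4 : Real.exp (ab (j + 3) / 4.675) ≤ 1.2959 :=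
      (exp_le_tp (by norm_num [ab]) (by norm_num [ab])).trans (by norm_num [tp, ab])
    exact more p0 (by linarith) le_rfl (by omega) (one_edge (h4.trans rho_ge)) i

/-- the inequality for one step -/
theorem key {ι : Type} (S : Finset ι) (m j : ι → ℕ) (h3 : ∀ u ∈ S, 3 ≤ j u + m u) :
    (∑ u ∈ S, m u * ab (j u)) * ∏ u ∈ S, gam (j u) ≤
      del (∑ u ∈ S, m u) * ∏ u ∈ S, gam (j u + m u) * cc ^ (2 * (m u - 1)) := by
  have hm : ∀ u ∈ S, m u ≤ ∑ u ∈ S, m u := fun u hu => single_le_sum (fun _ _ => Nat.zero_le _) hu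
  rcases (by omega : ∑ u ∈ S, m u = 0 ∨ ∑ u ∈ S, m u = 1 ∨ ∑ u ∈ S, m u = 2 ∨ 3 ≤ ∑ u ∈ S, m u)
    with h | h | h | h
  · rw [sum_eq_zero fun u hu => by rw [sum_eq_zero_iff.1 h u hu]; simp, zero_mul, h]
    simp [del]
  · refine lagr S m j (l := 1.36) (σ := 1) (κ := 1.36) (by norm_num) (by norm_num) ?_
      fun u hu => nb1 (h ▸ hm u hu) (h3 u hu)
    rw [h]
    norm_num [del]
  · refine lagr S m j (l := 2 * ab 2) (σ := 1 / 2) (κ := 1.456 / 1.059968) (by norm_num [ab])
      (by norm_num) ?_ fun u hu => nb2 (h ▸ hm u hu) (h3 u hu)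
    rw [h]
    norm_num [del, ab]
  · refine lagr S m j (l := 4.675) (σ := 0) (κ := 1) (by norm_num) (by norm_num) ?_
      fun u hu => nb3 (h3 u hu)
    obtain ⟨k, hk⟩ := Nat.exists_eq_add_of_le' h
    rw [hk, mul_zero, zero_sub, one_pow, mul_one, Real.exp_neg, ← div_eq_mul_inv,
      div_le_iff₀ (Real.exp_pos 1)]
    show _ ≤ 1.72 * _
    linarith [Real.exp_one_gt_d9]

section
variable {V : Type} [DecidableEq V]

theorem main (t : V) (N : ℕ) : ∀ (U : Finset V) (μ : V → V → ℕ) (n : ℕ) (s : V), U.card = N →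
    (∀ a b, μ a b = μ b a) → (∀ a, μ a a = 0) → s ∉ U → t ∈ U →
    (P μ t n U s : ℝ) ≤ dg μ (insert s U) t * (del (dg μ (insert s U) s) *
      ((∏ v ∈ U.erase t, gam (dg μ (insert s U) v)) * cc ^ ex μ (insert s U))) := by
  induction N with
  | zero => exact fun U _ _ _ h _ _ _ ht => absurd ht (by simp [card_eq_zero.1 h])
  | succ N ih =>
    intro U μ n s hN hs h0 hsU ht
    have c0 := one_le_cc
    have g0 : ∀ (S : Finset V) (f : V → ℕ), 1 ≤ ∏ v ∈ S, gam (f v) := fun S f =>
      (prod_const_one (s := S)).ge.trans (prod_le_prod (by simp) fun _ _ => one_le_gam _)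
    by_cases hc : ∃ v ∈ U.erase t, dg μ (insert s U) v ≤ 2
    · obtain ⟨v, hv, h2⟩ := hc
      obtain ⟨hvt, hvU⟩ := mem_erase.1 hv
      have hvW : v ∈ insert s U := mem_insert_of_mem hvU
      have e : insert s (U.erase v) = (insert s U).erase v :=
        (erase_insert_of_ne fun e : s = v => hsU (e ▸ hvU)).symm
      have h1 := ih (U.erase v) (red μ v) n s (by rw [card_erase_of_mem hvU, hN]; rfl)
        (fun a b => by
          unfold red
          rw [hs a b, hs a v, hs v b, mul_comm]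
          simp only [eq_comm])
        (fun a => by simp [red, h0]) (fun h => hsU (mem_of_mem_erase h))
        (mem_erase.2 ⟨hvt.symm, ht⟩)
      rw [e] at h1
      have hd := fun z hz => dg_red hs h0 hvW (z := z) hz h2
      refine (Nat.cast_le.2 (P_red μ hvt n U s hvU hsU)).trans (h1.trans ?_)
      have g1 := g0 ((U.erase t).erase v) (dg μ (insert s U))
      refine mul_le_mul (Nat.cast_le.2 (hd t (e ▸ mem_insert_of_mem (mem_erase.2 ⟨hvt.symm, ht⟩))))
        (mul_le_mul (del_mono (hd s (e ▸ mem_insert_self _ _))) ?_ ?_ (del_nonneg _)) ?_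
        (Nat.cast_nonneg _)
      · rw [← mul_prod_erase _ _ hv, erase_right_comm, mul_comm (gam _), mul_assoc]
        refine mul_le_mul (prod_le_prod (fun _ _ => (gam_pos _).le) fun z hz => gam_mono (hd z ?_))
          ?_ (by positivity) (by linarith)
        · exact mem_erase.2 ⟨(mem_erase.1 hz).1,
            mem_insert_of_mem (mem_of_mem_erase (mem_of_mem_erase hz))⟩
        · refine (pow_le_pow_right₀ c0 (ex_red hs v)).trans ?_
          rw [pow_add, mul_comm]
          exact mul_le_mul_of_nonneg_right (cc_le_gam h2) (by positivity)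
      · exact mul_nonneg (zero_le_one.trans (g0 _ _)) (by positivity)
      · exact mul_nonneg (del_nonneg _) (mul_nonneg (zero_le_one.trans (g0 _ _)) (by positivity))
    have x0 : 1 ≤ (∏ v ∈ U.erase t, gam (dg μ (insert s U) v)) * cc ^ ex μ (insert s U) :=
      one_le_mul_of_one_le_of_one_le (g0 _ _) (one_le_pow₀ c0)
    cases n with
    | zero =>
      simp only [P, Nat.cast_zero]
      exact mul_nonneg (Nat.cast_nonneg _) (mul_nonneg (del_nonneg _) (by linarith))
    | succ n =>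
      push Not at hc
      have d1 : ∀ z, dg μ (insert s U) z = dg μ U z + μ s z := fun z => by
        rw [dg, sum_insert hsU, hs z s, add_comm]; rfl
      have d2 : dg μ (insert s U) s = μ s t + ∑ u ∈ U.erase t, μ s u := by
        rw [d1, h0, add_zero, add_sum_erase _ _ ht]; rfl
      have d3 : ex μ U + ∑ u ∈ U.erase t, 2 * (μ s u - 1) ≤ ex μ (insert s U) := by
        simp only [ex, sum_insert hsU, sum_add_distrib, ← mul_sum, fun a => hs a s]
        have := sum_le_sum_of_subset (f := fun u => μ s u - 1) (erase_subset t U)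
        omega
      have k1 := key (U.erase t) (μ s) (dg μ U) fun u hu => by
        have := hc u hu
        rw [d1] at this
        omega
      simp only [← d1] at k1
      have k2 : ∀ u ∈ U.erase t, ((μ s u * if u = t then 1 else P μ t n (U.erase u) u : ℕ) : ℝ) ≤
          dg μ U t * cc ^ ex μ U * (μ s u * ab (dg μ U u) * ∏ v ∈ U.erase t, gam (dg μ U v)) := by
        intro u hu
        obtain ⟨hut, huU⟩ := mem_erase.1 hu
        have h1 := ih (U.erase u) μ n u (by rw [card_erase_of_mem huU, hN]; rfl) hs h0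
          (notMem_erase _ _) (mem_erase.2 ⟨hut.symm, ht⟩)
        rw [insert_erase huU, erase_right_comm] at h1
        rw [if_neg hut, Nat.cast_mul, ← mul_prod_erase _ _ hu]
        have g1 := g0 ((U.erase t).erase u) (dg μ U)
        calc _ ≤ μ s u * (dg μ U t * (ab (dg μ U u) * gam (dg μ U u) *
              ((∏ v ∈ (U.erase t).erase u, gam (dg μ U v)) * cc ^ ex μ U))) := by
              refine mul_le_mul_of_nonneg_left (h1.trans ?_) (Nat.cast_nonneg _)
              gcongr
              exact del_le_ab _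
          _ = _ := by ring
      rw [P, ← add_sum_erase _ _ ht, if_pos rfl, mul_one, Nat.cast_add, Nat.cast_sum, d1 t,
        Nat.cast_add, add_mul, add_comm]
      refine add_le_add ((sum_le_sum k2).trans ?_) ?_
      · rw [← mul_sum, ← sum_mul, mul_assoc]
        refine mul_le_mul_of_nonneg_left
          ((mul_le_mul_of_nonneg_left k1 (by positivity)).trans ?_) (Nat.cast_nonneg _)
        rw [prod_mul_distrib, prod_pow_eq_pow_sum]
        have g1 := g0 (U.erase t) (dg μ (insert s U))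
        calc _ = del (∑ u ∈ U.erase t, μ s u) * ((∏ v ∈ U.erase t, gam (dg μ (insert s U) v)) *
              cc ^ (ex μ U + ∑ u ∈ U.erase t, 2 * (μ s u - 1))) := by ring
          _ ≤ _ := mul_le_mul (del_mono (by omega)) (mul_le_mul_of_nonneg_left
              (pow_le_pow_right₀ c0 d3) (by linarith)) (by positivity) (del_nonneg _)
      · rcases Nat.eq_zero_or_pos (μ s t) with h | h
        · simp [h]
        · exact le_mul_of_one_le_right (Nat.cast_nonneg _)
            (one_le_mul_of_one_le_of_one_le (one_le_del (by omega)) x0)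
end

end Pool.Agent.MP_94842c_co.Th
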