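import Pool.Agent.MP_94842c_co.th.Pot
import Pool.Agent.MP_94842c_co.LimDefs

/-! The number of cycles of a connected graph in terms of the numbers of vertices and edges. -/

set_option autoImplicit false

noncomputable section

namespace Pool.Agent.MP_94842c_co.Th

open Finset
open scoped Classical

theorem sq_le_gam (d : ℕ) : (d : ℝ) ^ 2 ≤ 53 * gam d := by
  match d with
  | 0 | 1 | 2 => norm_num [gam]
  | d + 3 =>
    have h1 : (1 + (d : ℝ) * 0.138) ≤ (1 + 0.138) ^ d := one_add_mul_le_pow (by norm_num) d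
    have h2 : ((1 + 0.138 : ℝ) ^ d) ^ 2 ≤ rho ^ d := by
      rw [← pow_mul, mul_comm, pow_mul]
      exact pow_le_pow_left₀ (by positivity) (le_trans (by norm_num) rho_ge) d
    have h3 := (pow_le_pow_left₀ (by positivity) h1 2).trans h2
    have h4 : (0 : ℝ) ≤ d := Nat.cast_nonneg d
    show _ ≤ 53 * (1.456 * rho ^ d)
    push_cast
    nlinarith

theorem gam_line {d : ℕ} (h : 2 ≤ d) : gam d ≤ rho ^ d * (1.456 / rho ^ 3) := by
  have r0 := one_le_rho
  match d, h with
  | 2, _ => norm_num [gam, rho]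
  | d + 3, _ =>
    refine le_of_eq ?_
    show 1.456 * rho ^ d = _
    field_simp
    ring

theorem gam_line' (d : ℕ) : gam d ≤ 1.5 * (rho ^ d * (1.456 / rho ^ 3)) := by
  match d with
  | 0 | 1 => norm_num [gam, rho]
  | d + 2 =>
    have := gam_line (d := d + 2) (by omega)
    have := gam_pos (d + 2)
    linarith

variable {V : Type} (G : SimpleGraph V)

/-- the cycles inside `W` -/
def cyc (W : Finset V) : Set (Set (Sym2 V)) :=
  {S | ∃ (v : V) (p : G.Walk v v), p.IsCycle ∧ S = p.edgeSet ∧ ∀ x ∈ p.support, x ∈ W}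

theorem dg_card (W : Finset V) (v : V) : dg (mu G) W v = (W.filter (G.Adj v)).card := by
  rw [dg, card_filter]
  rfl

theorem two_le_dg {W : Finset V} {v a b : V} (ha : a ∈ W) (hb : b ∈ W) (h1 : G.Adj v a)
    (h2 : G.Adj v b) (h : a ≠ b) : 2 ≤ dg (mu G) W v := by
  rw [dg_card]
  exact one_lt_card.2 ⟨a, mem_filter.2 ⟨ha, h1⟩, b, mem_filter.2 ⟨hb, h2⟩, h⟩

theorem cyc_split (W : Finset V) (v : V) {S : Set (Sym2 V)} (h : S ∈ cyc G W) :
    S ∈ cyc G (W.erase v) ∨ ∃ (w : V) (_ : G.Adj v w) (q : G.Walk w v), q.IsPath ∧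
      s(v, w) ∉ q.edges ∧ S = insert s(v, w) q.edgeSet ∧ ∀ x ∈ q.support, x ∈ W := by
  obtain ⟨u, p, hp, rfl, hW⟩ := h
  by_cases hv : v ∈ p.support
  · right
    have h1 := hp.rotate hv
    have h2 : p.edgeSet = (p.rotate v hv).edgeSet := by
      ext e
      exact (p.rotate_edges v hv).perm.mem_iff.symm
    have h3 : ∀ x ∈ (p.rotate v hv).support, x ∈ W := fun x hx =>
      hW x ((p.mem_support_rotate_iff v hv).1 hx)
    rw [h2]
    generalize p.rotate v hv = r at h1 h3
    cases r with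
    | nil => exact absurd h1 SimpleGraph.Walk.not_isCycle_nil
    | @cons _ w _ h q =>
      have hq := (SimpleGraph.Walk.cons_isCycle_iff q h).1 h1
      exact ⟨w, h, q, hq.1, hq.2, by simp, fun x hx => h3 x (by simp [hx])⟩
  · exact .inl ⟨u, p, hp, rfl, fun x hx => mem_erase.2 ⟨fun e => hv (e ▸ hx), hW x hx⟩⟩

theorem cyc_leaf {W : Finset V} {v : V} (h : dg (mu G) W v ≤ 1) :
    cyc G W ⊆ cyc G (W.erase v) := by
  intro S hS
  rcases cyc_split G W v hS with h1 | ⟨w, hw, q, -, h2, -, h3⟩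
  · exact h1
  · have hn : ¬q.Nil := SimpleGraph.Walk.not_nil_of_ne hw.ne'
    have h4 := q.adj_penultimate hn
    have h5 := two_le_dg G (h3 w q.start_mem_support) (h3 _ (q.getVert_mem_support _)) hw h4.symm
      fun e : w = q.penultimate => h2 (by
        have := SimpleGraph.Walk.mk_penultimate_end_mem_edges hn
        rwa [← e, Sym2.eq_swap] at this)
    omega

theorem dg_erase_le (W : Finset V) (v u : V) : dg (mu G) (W.erase v) u ≤ dg (mu G) W u :=
  sum_le_sum_of_subset (erase_subset v W)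

theorem mu_symm (a b : V) : mu G a b = mu G b a := by simp only [mu, G.adj_comm]

theorem through {W : Finset V} {v w : V} (hv : v ∈ W) (hw : w ∈ W) (h : v ≠ w) (n : ℕ) :
    (P (mu G) v n (W.erase w) w : ℝ) ≤
      dg (mu G) W v * (1.72 * ∏ u ∈ W.erase v, gam (dg (mu G) W u)) := by
  have := main v _ (W.erase w) (mu G) n w rfl (mu_symm G) (fun a => by simp [mu])
    (notMem_erase _ _) (mem_erase.2 ⟨h, hv⟩)
  have e : ex (mu G) W = 0 :=
    sum_eq_zero fun a _ => sum_eq_zero fun b _ => by unfold mu; split_ifs <;> rfl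
  rw [insert_erase hw, e, pow_zero, mul_one] at this
  have p0 : ∀ S : Finset V, 0 ≤ ∏ u ∈ S, gam (dg (mu G) W u) := fun S =>
    prod_nonneg fun _ _ => (gam_pos _).le
  refine this.trans (mul_le_mul_of_nonneg_left (mul_le_mul (del_le _) ?_ (p0 _) (by norm_num))
    (Nat.cast_nonneg _))
  rw [← mul_prod_erase (W.erase v) _ (mem_erase.2 ⟨h.symm, hw⟩), erase_right_comm]
  exact le_mul_of_one_le_left (p0 _) (one_le_gam _)

variable [Finite V]

/-- the bound by the degrees -/
theorem cyc_le (N : ℕ) : ∀ W : Finset V, W.card = N →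
    ((cyc G W).ncard : ℝ) ≤ 1700 * ∏ u ∈ W, gam (dg (mu G) W u) := by
  induction N with
  | zero =>
    intro W h
    rw [card_eq_zero.1 h]
    have : cyc G ∅ = ∅ := Set.eq_empty_iff_forall_notMem.2 fun S ⟨v, p, _, _, h⟩ =>
      notMem_empty v (h v p.start_mem_support)
    rw [this]
    simp
  | succ N ih =>
    intro W h
    obtain ⟨v, hv⟩ : W.Nonempty := card_pos.1 (by omega)
    have h1 := ih (W.erase v) (by rw [card_erase_of_mem hv, h]; rfl)
    have h2 : ∏ u ∈ W.erase v, gam (dg (mu G) (W.erase v) u) ≤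
        ∏ u ∈ W.erase v, gam (dg (mu G) W u) :=
      prod_le_prod (fun _ _ => (gam_pos _).le) fun u _ => gam_mono (dg_erase_le G W v u)
    rw [← mul_prod_erase W _ hv]
    have p0 : 0 ≤ ∏ u ∈ W.erase v, gam (dg (mu G) W u) := prod_nonneg fun _ _ => (gam_pos _).le
    set Φ := ∏ u ∈ W.erase v, gam (dg (mu G) W u)
    rcases (by omega : dg (mu G) W v ≤ 1 ∨ 2 ≤ dg (mu G) W v) with hd | hd
    · have h3 : ((cyc G W).ncard : ℝ) ≤ (cyc G (W.erase v)).ncard :=
        Nat.cast_le.2 (Set.ncard_le_ncard (cyc_leaf G hd))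
      have h4 := mul_le_mul_of_nonneg_right (one_le_gam (dg (mu G) W v)) p0
      linarith
    · have : Fintype V := Fintype.ofFinite V
      have h3 : cyc G W ⊆ cyc G (W.erase v) ∪ ↑((W.filter (G.Adj v)).biUnion fun w =>
          (ES G v (Fintype.card V) (W.erase w) w).image (insert s(v, w))) := by
        intro S hS
        rcases cyc_split G W v hS with h1 | ⟨w, hw, q, hq, -, rfl, h3⟩
        · exact .inl h1
        · refine .inr (mem_coe.2 (mem_biUnion.2 ⟨w, mem_filter.2 ⟨h3 w q.start_mem_support, hw⟩,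
            mem_image.2 ⟨q.edgeSet, mem_ES G q _ _ hq hw.ne' hq.length_lt.le fun x hx =>
              mem_erase.2 ⟨?_, h3 x (List.mem_of_mem_tail hx)⟩, rfl⟩⟩))
          rintro rfl
          have := hq.support_nodup
          rw [← q.cons_tail_support] at this
          exact (List.nodup_cons.1 this).1 hx
      have h4 := (Set.ncard_le_ncard h3).trans (Set.ncard_union_le _ _)
      rw [Set.ncard_coe_finset] at h4
      have h5 : (((W.filter (G.Adj v)).biUnion fun w =>
          (ES G v (Fintype.card V) (W.erase w) w).image (insert s(v, w))).card : ℝ) ≤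
          dg (mu G) W v * (dg (mu G) W v * (1.72 * Φ)) := by
        refine (Nat.cast_le.2 card_biUnion_le).trans ?_
        rw [Nat.cast_sum]
        refine (sum_le_card_nsmul _ _ (dg (mu G) W v * (1.72 * Φ)) fun w hw =>
          (Nat.cast_le.2 (card_image_le.trans (card_ES G _ _ _ _))).trans
            (through G hv (mem_filter.1 hw).1 (mem_filter.1 hw).2.ne _)).trans_eq ?_
        rw [nsmul_eq_mul, ← dg_card]
      have h6 := (Nat.cast_le (α := ℝ)).2 h4
      rw [Nat.cast_add] at h6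
      have h7 := mul_le_mul_of_nonneg_right (sq_le_gam (dg (mu G) W v)) p0
      have h8 : 1.059968 * Φ ≤ gam (dg (mu G) W v) * Φ :=
        mul_le_mul_of_nonneg_right (gam_mono hd) p0
      nlinarith

/-- the bound by the numbers of vertices and edges -/
theorem cyc_lin (s : V) (r : V → ℕ) (N : ℕ) : ∀ W : Finset V, W.card = N → s ∈ W →
    (∀ u ∈ W, u ≠ s → ∃ w ∈ W, G.Adj u w ∧ r w < r u) → ((cyc G W).ncard : ℝ) ≤
      2550 * (rho ^ (∑ u ∈ W, dg (mu G) W u) * (1.456 / rho ^ 3) ^ N) := by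
  have r0 := one_le_rho
  induction N with
  | zero => exact fun W h hs => absurd hs (by simp [card_eq_zero.1 h])
  | succ N ih =>
    intro W h hs hr
    by_cases hc : ∃ v ∈ W.erase s, dg (mu G) W v ≤ 1
    · obtain ⟨v, hv, hd⟩ := hc
      obtain ⟨hvs, hvW⟩ := mem_erase.1 hv
      obtain ⟨w, hw, h1, h2⟩ := hr v hvW hvs
      have h3 := ih (W.erase v) (by rw [card_erase_of_mem hvW, h]; rfl)
        (mem_erase.2 ⟨hvs.symm, hs⟩) fun u hu hus => by
          obtain ⟨z, hz, h4, h5⟩ := hr u (mem_of_mem_erase hu) hus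
          refine ⟨z, mem_erase.2 ⟨?_, hz⟩, h4, h5⟩
          rintro rfl
          have := two_le_dg G hw (mem_of_mem_erase hu) h1 h4.symm fun e => by
            rw [e] at h2
            omega
          omega
      have h4 : ∑ u ∈ W.erase v, dg (mu G) (W.erase v) u + 2 ≤ ∑ u ∈ W, dg (mu G) W u := by
        have a1 : 1 ≤ dg (mu G) W v := by
          rw [dg_card]
          exact card_pos.2 ⟨w, mem_filter.2 ⟨hw, h1⟩⟩
        have a2 : ∀ u, dg (mu G) W u = mu G v u + dg (mu G) (W.erase v) u := fun u => by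
          rw [dg, ← add_sum_erase _ _ hvW, mu_symm G u v]
          rfl
        have a3 : dg (mu G) W v = ∑ u ∈ W.erase v, mu G v u := by
          rw [a2 v]
          simp [mu, dg]
        rw [← add_sum_erase _ _ hvW, sum_congr rfl fun u _ => a2 u, sum_add_distrib, ← a3]
        omega
      refine (Nat.cast_le.2 (Set.ncard_le_ncard (cyc_leaf G hd))).trans (h3.trans ?_)
      refine mul_le_mul_of_nonneg_left ?_ (by norm_num)
      calc _ ≤ rho ^ (∑ u ∈ W.erase v, dg (mu G) (W.erase v) u) * (1.456 / rho ^ 3) ^ N *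
            (rho ^ 2 * (1.456 / rho ^ 3)) :=
            le_mul_of_one_le_right (by positivity) (by norm_num [rho])
        _ = rho ^ (∑ u ∈ W.erase v, dg (mu G) (W.erase v) u + 2) * (1.456 / rho ^ 3) ^ (N + 1) := by
            ring
        _ ≤ _ := mul_le_mul_of_nonneg_right (pow_le_pow_right₀ r0 h4) (by positivity)
    · push Not at hc
      refine (cyc_le G _ W rfl).trans ?_
      rw [← h, ← prod_pow_eq_pow_sum, ← prod_const, ← prod_mul_distrib, ← mul_prod_erase W _ hs,
        ← mul_prod_erase W _ hs]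
      have h1 : ∏ u ∈ W.erase s, gam (dg (mu G) W u) ≤
          ∏ u ∈ W.erase s, rho ^ dg (mu G) W u * (1.456 / rho ^ 3) :=
        prod_le_prod (fun _ _ => (gam_pos _).le) fun u hu => gam_line (hc u hu)
      have h2 := mul_le_mul (gam_line' (dg (mu G) W s)) h1
        (prod_nonneg fun _ _ => (gam_pos _).le) (by positivity)
      linarith

theorem upper (hG : G.Connected) (h : 5 * Nat.card V ≤ 3 * G.edgeSet.ncard) :
    ((Lim.cycles G).ncard : ℝ) ≤ 2550 * (19 / 20) ^ (3 * G.edgeSet.ncard - 5 * Nat.card V) *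
      2 ^ ((G.edgeSet.ncard : ℤ) - (Nat.card V : ℤ)) := by
  have : Fintype V := Fintype.ofFinite V
  obtain ⟨s⟩ := hG.nonempty
  have h1 := cyc_lin G s (fun u => G.dist u s) _ univ rfl (mem_univ s) fun u _ hu => by
    obtain ⟨p, hp⟩ := hG.exists_walk_length_eq_dist u s
    cases p with
    | nil => exact absurd rfl hu
    | @cons _ w _ h q =>
      refine ⟨w, mem_univ w, h, ?_⟩
      have := SimpleGraph.dist_le q
      rw [SimpleGraph.Walk.length_cons] at hp
      omega
  have h2 : Lim.cycles G ⊆ cyc G univ := fun S ⟨v, p, hp, e⟩ => ⟨v, p, hp, e, fun x _ => mem_univ x⟩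
  have h3 : ∑ u, dg (mu G) univ u = 2 * G.edgeSet.ncard := by
    simp only [dg_mu]
    rw [G.sum_degrees_eq_twice_card_edges, ← Set.ncard_coe_finset, SimpleGraph.coe_edgeFinset]
  rw [h3, card_univ, ← Nat.card_eq_fintype_card] at h1
  refine (Nat.cast_le.2 (Set.ncard_le_ncard h2)).trans (h1.trans ?_)
  obtain ⟨e, he⟩ := Nat.exists_eq_add_of_le h
  generalize G.edgeSet.ncard = m at he
  generalize Nat.card V = n at he
  have e1 : rho ^ 2 = 2 * (1 / 1.059968) ^ 3 := by norm_num [rho]
  have e2 : 1.456 / rho ^ 3 = 1 / (2 * (1 / 1.059968) ^ 5) := by norm_num [rho]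
  have h4 : ((1 : ℝ) / 1.059968) ^ e ≤ (19 / 20) ^ e :=
    pow_le_pow_left₀ (by norm_num) (by norm_num) e
  have p0 : (0 : ℝ) < 1 / 1.059968 := by norm_num
  rw [pow_mul, e1, e2, show 3 * m - 5 * n = e by omega, zpow_sub₀ two_ne_zero, zpow_natCast,
    zpow_natCast, mul_assoc]
  generalize (1 : ℝ) / 1.059968 = θ at h4 p0
  refine mul_le_mul_of_nonneg_left (le_trans (le_of_eq ?_)
    (mul_le_mul_of_nonneg_right h4 (by positivity))) (by norm_num)
  rw [mul_pow, ← pow_mul, he, one_div, inv_pow, mul_pow, ← pow_mul, pow_add]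
  field_simp

end Pool.Agent.MP_94842c_co.Th
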