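import Pool.Agent.MP_94842c_co.ES.Main
import Pool.Agent.MP_94842c_co.th.Up

/-! The bound for all densities. -/

set_option autoImplicit false

namespace Pool.Agent.MP_94842c_co.Th

open Finset Pool.Agent.MP_94842c_co.Lim Pool.Agent.MP_94842c_co.ES

theorem space_le {V : Type} [Finite V] (G : SimpleGraph V) (hG : G.Connected) :
    ((cycles G).ncard : ℝ) ≤ 2 * 2 ^ ((G.edgeSet.ncard : ℤ) - (Nat.card V : ℤ)) := by
  classical
  have : Fintype G.edgeSet := Fintype.ofFinite _
  obtain ⟨V0, v0, a, b, c⟩ := (row_br2 V G).2 hG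
  have k1 := row_lin4 (enG G) V0 v0 a c
  rw [card_edgeSet] at k1
  have k3 : (cycles G).ncard ≤ (Z (enG G)).card :=
    (all_br1 V G).trans (card_le_card fun X h => mem_Z.2 (mem_circs.1 h).1)
  refine (Nat.cast_le.2 k3).trans ?_
  rw [zpow_sub₀ two_ne_zero, zpow_natCast, zpow_natCast, ← b, pow_succ, ← mul_div_assoc,
    le_div_iff₀ (by positivity)]
  have : ((Z (enG G)).card : ℝ) * 2 ^ V0.card ≤ 2 ^ G.edgeSet.ncard := by exact_mod_cast k1
  linarith

theorem upper_all {V : Type} [Finite V] (G : SimpleGraph V) (hG : G.Connected) :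
    ((cycles G).ncard : ℝ) ≤
      2550 * (19 / 20) ^ (3 * (G.edgeSet.ncard : ℤ) - 5 * (Nat.card V : ℤ)) *
        2 ^ ((G.edgeSet.ncard : ℤ) - (Nat.card V : ℤ)) := by
  rcases le_total (5 * Nat.card V) (3 * G.edgeSet.ncard) with h | h
  · have h5 := upper G hG h
    rw [← zpow_natCast, Nat.cast_sub h] at h5
    push_cast at h5
    exact h5
  · have h5 : (1 : ℝ) ≤ (19 / 20) ^ (3 * (G.edgeSet.ncard : ℤ) - 5 * (Nat.card V : ℤ)) :=
      one_le_zpow_of_nonpos₀ (by norm_num) (by norm_num) (by omega)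
    exact (space_le G hG).trans (mul_le_mul_of_nonneg_right (by linarith) (by positivity))

end Pool.Agent.MP_94842c_co.Th
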